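import Pool.Agent.Helper97.RD8.Stmts11
import Pool.Agent.Helper39.RD8.MAIN8

/-! Project RD (rd8), row MAIN11. -/

set_option autoImplicit false

namespace Pool.Agent.Helper73.RD8

open Finset Pool.Agent.Helper18.RD Pool.Agent.Helper19.RD Pool.Agent.Helper97.RD8
open Pool.Agent.Helper39.RD8

lemma m11_alg (CU L Q t ν y : ℝ) (hCU : 0 < CU) (ht : 0 < t)
    (h : (ν * y / 2) * (t ^ 4 / 4) ≤ CU * (t ^ 2 * Q + t ^ 4 * Real.sqrt (Q * L))) :
    ν * y * t ^ 2 ≤ 16 * CU * Q ∨ ν * y ≤ 16 * CU * Real.sqrt (Q * L) := by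
  by_contra hcon
  rw [not_or] at hcon
  obtain ⟨h1, h2⟩ := hcon
  push Not at h1 h2
  have h3 : 16 * CU * Q * t ^ 2 < ν * y * t ^ 2 * t ^ 2 :=
    mul_lt_mul_of_pos_right h1 (by positivity)
  have h4 : 16 * CU * Real.sqrt (Q * L) * t ^ 4 < ν * y * t ^ 4 :=
    mul_lt_mul_of_pos_right h2 (by positivity)
  have e1 : ν * y * t ^ 2 * t ^ 2 = ν * y * t ^ 4 := by ring
  rw [e1] at h3
  have e2 : (ν * y / 2) * (t ^ 4 / 4) = (ν * y * t ^ 4) / 8 := by ring
  rw [e2] at h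
  have e3 : CU * (t ^ 2 * Q + t ^ 4 * Real.sqrt (Q * L)) =
      (16 * CU * Q * t ^ 2 + 16 * CU * Real.sqrt (Q * L) * t ^ 4) / 16 := by ring
  rw [e3] at h
  linarith

lemma m11_big (hPG : ST_PG) (hFS : ST_FS4) (CS CP CU : ℝ) (hCS : 0 < CS) (hCP : 0 < CP)
    (hCU : 0 < CU)
    (hSPB : ∀ (N z x : ℕ) (J U : Finset ℕ) (β : ℝ), 1 ≤ N → N ≤ z →
      1 ≤ x → J ⊆ range N → N ≤ J.card ^ 2 → 0 < β →
      (∀ p ∈ U, p.Prime ∧ p ≠ 2 ∧ z ≤ p ∧ p ≤ x) →
      (∀ p ∈ U, β * (J.card : ℝ) ^ 4 ≤ ∑ t ∈ T4 J, (jacobiSym (cyc df t) p : ℝ)) →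
      β ^ 20 * ((U.card : ℝ) / x) ^ 10 ≤ CS * (1 + Real.log x) * (N : ℝ) ^ (-(1 / 20) : ℝ))
    (hPI : ∀ y : ℕ, 2 ≤ y → (Nat.primeCounting y : ℝ) * Real.log y ≤ CP * y)
    (hU : ∀ (N q a : ℕ) (S J : Finset ℕ) (e c d : ℕ → ℕ → ℤ)
      (k : ℤ) (w : ℝ) (m : ℕ → ℤ), 1 ≤ N → 1 ≤ q → Nat.Coprime q a → N ≤ q →
      DatR N q a S e c d k w m → J ⊆ S →
      ∑ p ∈ OP q, wt q p * (∑ n ∈ J, (e n p : ℝ)) ^ 4 ≤
        CU * ((J.card : ℝ) ^ 2 * Real.log q +
          (J.card : ℝ) ^ 4 * Real.sqrt (Real.log q * (1 + Real.log N))))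
    (N q a y : ℕ) (δ : ℝ) (hδ : 0 < δ) (hδ2 : δ ≤ 1 / 4000)
    (hN : 1 ≤ N) (hq : 1 ≤ q) (hy : 1 ≤ y) (hcop : Nat.Coprime q a) (hNq : N ≤ q)
    (hb : 256 ≤ (N : ℝ) ^ δ) (hc : 126 ≤ (N : ℝ) ^ (3 / 10 : ℝ))
    (hK : 4 ^ 10 * (CS * (1 + CP)) ≤ (N : ℝ) ^ (1 / 50 : ℝ))
    (S J : Finset ℕ) (e c d : ℕ → ℕ → ℤ) (k : ℤ) (w : ℝ) (m : ℕ → ℤ)
    (hD : DatR N q a S e c d k w m) (hJS : J ⊆ S)
    (htN : (N : ℝ) ^ (1 / 2 : ℝ) ≤ (J.card : ℝ))
    (hTN : ((TN J d).card : ℝ) ≤ (N : ℝ) ^ (-δ) * (J.card : ℝ) ^ 4)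
    (hyN : 16 * (N : ℝ) ^ (1 + δ) ≤ y)
    (hP : (N : ℝ) ^ (-δ) * y ≤ (((Icc 1 y).filter (fun p => p.Prime ∧ p ∣ q)).card : ℝ)) :
    (N : ℝ) ^ (-δ) * y * (J.card : ℝ) ^ 2 ≤ 16 * CU * Real.log q ∨
      (N : ℝ) ^ (-δ) * y ≤ 16 * CU * Real.sqrt (Real.log q * (1 + Real.log N)) := by
  classical
  have hNr : (1 : ℝ) ≤ N := by exact_mod_cast hN
  have hN0 : (0 : ℝ) < N := by linarith
  have hyr : (1 : ℝ) ≤ y := by exact_mod_cast hy
  have hy0 : (0 : ℝ) < y := by linarith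
  obtain ⟨t, ht⟩ : ∃ t : ℝ, t = (J.card : ℝ) := ⟨_, rfl⟩
  have ht0' : 0 ≤ t := by rw [ht]; exact Nat.cast_nonneg _
  rw [← ht] at htN
  have ht126 : 126 ≤ t := by
    refine le_trans hc (le_trans ?_ htN)
    exact Real.rpow_le_rpow_of_exponent_le hNr (by norm_num)
  have ht0 : 0 < t := by linarith
  have hJr : J ⊆ range N := fun n hn => by
    have h2 := hD.sub (hJS hn)
    rw [SS, mem_filter] at h2
    exact h2.1
  -- ν and ρ
  obtain ⟨A, hA⟩ : ∃ A : ℝ, A = (N : ℝ) ^ δ := ⟨_, rfl⟩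
  rw [← hA] at hb
  have hA0 : 0 < A := by linarith
  obtain ⟨ν, hν⟩ : ∃ ν : ℝ, ν = (N : ℝ) ^ (-δ) := ⟨_, rfl⟩
  have hν0 : 0 < ν := by rw [hν]; exact Real.rpow_pos_of_pos hN0 _
  have hνA : ν * A = 1 := by
    rw [hν, hA, ← Real.rpow_add hN0]; simp
  have hν1 : ν ≤ 1 / 256 := by nlinarith
  rw [← hν] at hTN hP ⊢
  rw [← ht] at hTN ⊢
  obtain ⟨ρ, hρ⟩ : ∃ ρ : ℝ, ρ = 32 * ν := ⟨_, rfl⟩
  have hρ0 : 0 < ρ := by rw [hρ]; positivity
  have hρ8 : ρ ≤ 1 / 8 := by rw [hρ]; linarith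
  have hJ2 : 2 ≤ J.card := by
    have : (2 : ℝ) ≤ (J.card : ℝ) := by rw [← ht]; linarith
    exact_mod_cast this
  obtain ⟨x0, hx, y0, hy1, hxy, hNQ⟩ := hPG J d ν hJ2 hν0.le (by rw [← ht]; exact hTN)
  have hNQ' : ((NQ J d x0 y0).card : ℝ) ≤ (2 * ν) * (J.card : ℝ) ^ 2 := hNQ
  have hρt : 100 ≤ ρ * t := by
    have h1 : (N : ℝ) ^ (3 / 10 : ℝ) ≤ ν * t := by
      calc (N : ℝ) ^ (3 / 10 : ℝ) ≤ (N : ℝ) ^ (-δ + 1 / 2) :=
            Real.rpow_le_rpow_of_exponent_le hNr (by linarith)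
        _ = ν * (N : ℝ) ^ (1 / 2 : ℝ) := by rw [hν, Real.rpow_add hN0]
        _ ≤ ν * t := mul_le_mul_of_nonneg_left htN hν0.le
    rw [hρ]; linarith
  have hJN : N ≤ J.card ^ 2 := by
    have h1 : (N : ℝ) = ((N : ℝ) ^ (1 / 2 : ℝ)) ^ 2 := by
      rw [← Real.rpow_natCast, ← Real.rpow_mul hN0.le]; norm_num
    have h2 : (N : ℝ) ≤ (J.card : ℝ) ^ 2 := by
      rw [h1, ← ht]
      exact pow_le_pow_left₀ (Real.rpow_nonneg hN0.le _) htN 2
    exact_mod_cast h2
  -- the primes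
  obtain ⟨P, hPdef⟩ : ∃ P : Finset ℕ, P = (Icc 1 y).filter (fun p => p.Prime ∧ p ∣ q) := ⟨_, rfl⟩
  rw [← hPdef] at hP
  obtain ⟨z, hz⟩ : ∃ z : ℕ, z = ⌊ν * y / 4⌋₊ := ⟨_, rfl⟩
  have hz1 : (z : ℝ) ≤ ν * y / 4 := by rw [hz]; exact Nat.floor_le (by positivity)
  have hz2 : 4 * N ≤ z := by
    rw [hz]
    apply Nat.le_floor
    push_cast
    have h1 : (N : ℝ) ^ (1 + δ) = N * A := by rw [Real.rpow_add hN0, Real.rpow_one, hA]
    rw [h1] at hyN
    have h2 : ν * (16 * (N * A)) ≤ ν * y := mul_le_mul_of_nonneg_left hyN hν0.le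
    have h3 : ν * (16 * (N * A)) = 16 * N * (ν * A) := by ring
    rw [h3, hνA] at h2
    linarith
  obtain ⟨P1, hP1⟩ : ∃ P1 : Finset ℕ, P1 = P.filter (fun p => z < p) := ⟨_, rfl⟩
  have hP1c : P.card ≤ P1.card + z := by
    have h1 : P ⊆ P1 ∪ Icc 1 z := by
      intro p hp
      rw [mem_union]
      by_cases hzp : z < p
      · left; rw [hP1, mem_filter]; exact ⟨hp, hzp⟩
      · right
        rw [hPdef, mem_filter, mem_Icc] at hp
        rw [mem_Icc]
        omega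
    have h2 := card_le_card h1
    have h3 := card_union_le P1 (Icc 1 z)
    rw [Nat.card_Icc] at h3
    omega
  have hP1r : 3 / 4 * (ν * y) ≤ (P1.card : ℝ) := by
    have h1 : (P.card : ℝ) ≤ (P1.card : ℝ) + z := by exact_mod_cast hP1c
    linarith
  have hmem : ∀ p ∈ P1, p.Prime ∧ p ∣ q ∧ p ≤ y ∧ z < p ∧ p ∈ OP q := by
    intro p hp
    rw [hP1, mem_filter, hPdef, mem_filter, mem_Icc] at hp
    obtain ⟨⟨⟨h1, h2⟩, h3, h4⟩, h5⟩ := hp
    refine ⟨h3, h4, h2, h5, ?_⟩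
    rw [OP, mem_erase, Nat.mem_primeFactors]
    exact ⟨by omega, h3, h4, by omega⟩
  -- split primes
  obtain ⟨U, hUd⟩ : ∃ U : Finset ℕ, U = P1.filter (fun p => ρ * (J.card : ℝ) ^ 2 ≤
    ((Sg J e p 1).card : ℝ) * ((Sg J e p (-1)).card : ℝ)) := ⟨_, rfl⟩
  obtain ⟨T, hT⟩ : ∃ T : Finset ℕ, T = P1.filter (fun p => ¬ ρ * (J.card : ℝ) ^ 2 ≤
    ((Sg J e p 1).card : ℝ) * ((Sg J e p (-1)).card : ℝ)) := ⟨_, rfl⟩
  have hUT : U.card + T.card = P1.card := by
    rw [hUd, hT]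
    exact card_filter_add_card_filter_not _
  have hlogy : Real.log y ≤ CP * A := by
    have h2 : 2 ≤ y := by
      have : (2 : ℝ) ≤ y := by
        have h3 : (1 : ℝ) ≤ (N : ℝ) ^ (1 + δ) := Real.one_le_rpow hNr (by linarith)
        linarith
      exact_mod_cast this
    have h1 := hPI y h2
    have h3 : P.card ≤ Nat.primeCounting y := by
      rw [Nat.primeCounting, ← Nat.primesBelow_card_eq_primeCounting']
      apply card_le_card
      intro p hp
      rw [hPdef, mem_filter, mem_Icc] at hp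
      rw [Nat.mem_primesBelow]
      exact ⟨by omega, hp.2.1⟩
    have h4 : ν * y ≤ (Nat.primeCounting y : ℝ) := le_trans hP (by exact_mod_cast h3)
    have h5 : 0 ≤ Real.log y := Real.log_nonneg hyr
    have h6 : ν * y * Real.log y ≤ CP * y := le_trans (mul_le_mul_of_nonneg_right h4 h5) h1
    have h7 : (ν * Real.log y) * y ≤ CP * y := by linarith [h6, mul_comm (ν * (y : ℝ)) (Real.log y)]
    have h8 : ν * Real.log y ≤ CP := le_of_mul_le_mul_right h7 hy0
    calc Real.log y = (ν * A) * Real.log y := by rw [hνA, one_mul]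
      _ = (ν * Real.log y) * A := by ring
      _ ≤ CP * A := mul_le_mul_of_nonneg_right h8 hA0.le
  have hUc : (U.card : ℝ) ≤ ν * y / 4 := by
    have h1 := hSPB N z y J U (ρ ^ 4 / 16) hN (by omega) hy hJr hJN (by positivity) (by
      intro p hp
      rw [hUd, mem_filter] at hp
      obtain ⟨h1, h2, h3, h4, h5⟩ := hmem p hp.1
      exact ⟨h1, by omega, h4.le, h3⟩) (by
      intro p hp
      rw [hUd, mem_filter] at hp
      obtain ⟨h1, h2, h3, h4, h5⟩ := hmem p hp.1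
      exact hFS N q a S J e c d k w (2 * ν) ρ m x0 y0 p hD hJS hx hy1 hxy hNQ' hρ0
        (by rw [hρ]; linarith) (by rw [← ht]; exact hρt) h5 (by omega) hp.2)
    obtain ⟨u, hu⟩ : ∃ u : ℝ, u = (U.card : ℝ) / y := ⟨_, rfl⟩
    have hu0 : 0 ≤ u := by rw [hu]; positivity
    rw [← hu] at h1
    obtain ⟨B, hB⟩ : ∃ B : ℝ, B = (N : ℝ) ^ (-(1 / 20) : ℝ) := ⟨_, rfl⟩
    have hB0 : 0 < B := by rw [hB]; exact Real.rpow_pos_of_pos hN0 _
    rw [← hB] at h1
    have h2 : ν ^ 80 ≤ (ρ ^ 4 / 16) ^ 20 := by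
      have e1 : ν ^ 80 = (ν ^ 4) ^ 20 := by ring
      have e2 : ρ ^ 4 / 16 = 65536 * ν ^ 4 := by rw [hρ]; ring
      rw [e1, e2]
      apply pow_le_pow_left₀ (by positivity)
      have : 0 ≤ ν ^ 4 := by positivity
      linarith
    have h3 : 1 + Real.log y ≤ (1 + CP) * A := by
      have : (1 : ℝ) ≤ A := by linarith
      nlinarith
    have h4 : ν ^ 80 * u ^ 10 ≤ CS * ((1 + CP) * A) * B := by
      calc ν ^ 80 * u ^ 10 ≤ (ρ ^ 4 / 16) ^ 20 * u ^ 10 :=
            mul_le_mul_of_nonneg_right h2 (by positivity)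
        _ ≤ CS * (1 + Real.log y) * B := h1
        _ ≤ CS * ((1 + CP) * A) * B := by
            apply mul_le_mul_of_nonneg_right _ hB0.le
            exact mul_le_mul_of_nonneg_left h3 hCS.le
    have h5 : u ^ 10 ≤ CS * (1 + CP) * A ^ 81 * B := by
      have e1 : (ν * A) ^ 80 * u ^ 10 = A ^ 80 * (ν ^ 80 * u ^ 10) := by ring
      rw [hνA, one_pow, one_mul] at e1
      rw [e1]
      calc A ^ 80 * (ν ^ 80 * u ^ 10) ≤ A ^ 80 * (CS * ((1 + CP) * A) * B) :=
            mul_le_mul_of_nonneg_left h4 (by positivity)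
        _ = CS * (1 + CP) * A ^ 81 * B := by ring
    have h6 : (N : ℝ) ^ (1 / 50 : ℝ) * (A ^ 81 * B) ≤ ν ^ 10 := by
      have e1 : A ^ 81 = (N : ℝ) ^ (δ * 81) := by
        rw [hA, Real.rpow_mul hN0.le]
        norm_cast
      have e2 : ν ^ 10 = (N : ℝ) ^ (-δ * 10) := by
        rw [hν, Real.rpow_mul hN0.le]
        norm_cast
      rw [e1, e2, hB, ← Real.rpow_add hN0, ← Real.rpow_add hN0]
      apply Real.rpow_le_rpow_of_exponent_le hNr
      linarith
    have h7 : u ^ 10 ≤ (ν / 4) ^ 10 := by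
      have e1 : (ν / 4) ^ 10 = ν ^ 10 / 4 ^ 10 := by rw [div_pow]
      rw [e1, le_div_iff₀ (by positivity)]
      calc u ^ 10 * 4 ^ 10 ≤ CS * (1 + CP) * A ^ 81 * B * 4 ^ 10 :=
            mul_le_mul_of_nonneg_right h5 (by positivity)
        _ = 4 ^ 10 * (CS * (1 + CP)) * (A ^ 81 * B) := by ring
        _ ≤ (N : ℝ) ^ (1 / 50 : ℝ) * (A ^ 81 * B) :=
            mul_le_mul_of_nonneg_right hK (by positivity)
        _ ≤ ν ^ 10 := h6
    have h8 : u ≤ ν / 4 := le_of_pow_le_pow_left₀ (by norm_num) (by positivity) h7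
    rw [hu, div_le_iff₀ hy0] at h8
    linarith
  have hTc : ν * y / 2 ≤ (T.card : ℝ) := by
    have h1 : (U.card : ℝ) + T.card = P1.card := by exact_mod_cast hUT
    linarith
  -- the fourth moment
  have hUU := hU N q a S J e c d k w m hN hq hcop hNq hD hJS
  rw [← ht] at hUU
  have hlow : (T.card : ℝ) * (t ^ 4 / 4) ≤ ∑ p ∈ OP q, wt q p * (∑ n ∈ J, (e n p : ℝ)) ^ 4 := by
    have hsub : T ⊆ OP q := by
      intro p hp
      rw [hT, mem_filter] at hp
      exact (hmem p hp.1).2.2.2.2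
    calc (T.card : ℝ) * (t ^ 4 / 4) = ∑ _p ∈ T, (t ^ 4 / 4) := by
          rw [sum_const, nsmul_eq_mul]
      _ ≤ ∑ p ∈ T, wt q p * (∑ n ∈ J, (e n p : ℝ)) ^ 4 := by
          apply sum_le_sum
          intro p hp
          have hpO := hsub hp
          rw [hT, mem_filter] at hp
          have h1 : ((Sg J e p 1).card : ℝ) * ((Sg J e p (-1)).card : ℝ) <
              ρ * (J.card : ℝ) ^ 2 := not_le.mp hp.2
          have h2 := m8_sum J e p ρ hD.dat.sgn hρ8 h1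
          rw [← ht] at h2
          have h3 := m8_wt q p hpO
          have h4 : 0 ≤ (∑ n ∈ J, (e n p : ℝ)) ^ 4 := by positivity
          nlinarith
      _ ≤ ∑ p ∈ OP q, wt q p * (∑ n ∈ J, (e n p : ℝ)) ^ 4 := by
          apply sum_le_sum_of_subset_of_nonneg hsub
          intro p hp _
          have h3 := m8_wt q p hp
          positivity
  apply m11_alg CU (1 + Real.log N) (Real.log q) t ν y hCU ht0
  refine le_trans ?_ (le_trans hlow hUU)
  exact mul_le_mul_of_nonneg_right hTc (by positivity)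

theorem st_MAIN11 (hA1 : ST_A1) (hPG : ST_PG) (hFS : ST_FS4) (hSPB : ST_SPB) (hUN : ST_UNS)
    (hM8 : Pool.Agent.Helper19.RD.ST_MAIN8) (hPI : ST_PIU) : ST_MAIN11 := by
  classical
  intro ε hε
  obtain ⟨η, hη⟩ : ∃ η : ℝ, η = min (ε / 2) (1 / 10) := ⟨_, rfl⟩
  have hη0 : 0 < η := by rw [hη]; exact lt_min (by positivity) (by norm_num)
  have hη1 : η ≤ 1 / 10 := by rw [hη]; exact min_le_right _ _
  have hη2 : η ≤ ε / 2 := by rw [hη]; exact min_le_left _ _
  obtain ⟨δ1, N0, hδ1, hδη, hA⟩ := hA1 η hη0 hη1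
  obtain ⟨CU, hCU, hU⟩ := hUN
  obtain ⟨C8, hM⟩ := hM8 (ε / 2) (by positivity)
  obtain ⟨CS, hCS, hS⟩ := hSPB
  obtain ⟨CP, hCP, hPP⟩ := hPI
  obtain ⟨δ, hδd⟩ : ∃ δ : ℝ, δ = min δ1 (1 / 4000) := ⟨_, rfl⟩
  have hδ0 : 0 < δ := by rw [hδd]; exact lt_min hδ1 (by norm_num)
  have hδ2 : δ ≤ 1 / 4000 := by rw [hδd]; exact min_le_right _ _
  have hδ3 : δ ≤ δ1 := by rw [hδd]; exact min_le_left _ _
  have hδε : δ ≤ ε / 2 := by linarith
  obtain ⟨N1, hN1⟩ : ∃ N1 : ℕ, ∀ N : ℕ, N1 ≤ N → N0 ≤ N ∧ 256 ≤ (N : ℝ) ^ δ ∧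
      126 ≤ (N : ℝ) ^ (3 / 10 : ℝ) ∧ 4 ^ 10 * (CS * (1 + CP)) ≤ (N : ℝ) ^ (1 / 50 : ℝ) := by
    have e1 := ((tendsto_rpow_atTop hδ0).comp tendsto_natCast_atTop_atTop).eventually_ge_atTop
      (256 : ℝ)
    have e2 := ((tendsto_rpow_atTop (show (0 : ℝ) < 3 / 10 by norm_num)).comp
      tendsto_natCast_atTop_atTop).eventually_ge_atTop (126 : ℝ)
    have e3 := ((tendsto_rpow_atTop (show (0 : ℝ) < 1 / 50 by norm_num)).comp
      tendsto_natCast_atTop_atTop).eventually_ge_atTop (4 ^ 10 * (CS * (1 + CP)))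
    obtain ⟨N1, hN1⟩ := Filter.eventually_atTop.mp
      ((Filter.eventually_ge_atTop N0).and (e1.and (e2.and e3)))
    exact ⟨N1, fun N hN => hN1 N hN⟩
  obtain ⟨K1, hK1⟩ : ∃ K1 : ℝ, K1 = Real.sqrt (16 * CU) := ⟨_, rfl⟩
  obtain ⟨K2, hK2⟩ : ∃ K2 : ℝ, K2 = Real.sqrt (16 * CU * (1 + 2 / ε)) := ⟨_, rfl⟩
  have hK10 : 0 ≤ K1 := by rw [hK1]; exact Real.sqrt_nonneg _
  have hK20 : 0 ≤ K2 := by rw [hK2]; exact Real.sqrt_nonneg _
  obtain ⟨M, hMd⟩ : ∃ M : ℝ, M = |C8| := ⟨_, rfl⟩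
  have hM0 : 0 ≤ M := by rw [hMd]; exact abs_nonneg _
  obtain ⟨C, hC⟩ : ∃ C : ℝ, C = N1 + 1 + 5 * M + K1 + M * K2 := ⟨_, rfl⟩
  have hN1' : (0 : ℝ) ≤ N1 := Nat.cast_nonneg _
  have hMK : 0 ≤ M * K2 := mul_nonneg hM0 hK20
  have hC0 : 0 < C := by rw [hC]; linarith
  refine ⟨C, δ, hC0, hδ0, ?_⟩
  intro N q a y hN hq hy hcop hP
  have hNr : (1 : ℝ) ≤ N := by exact_mod_cast hN
  have hN0 : (0 : ℝ) < N := by linarith
  have hyr : (1 : ℝ) ≤ y := by exact_mod_cast hy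
  have hy0 : (0 : ℝ) < y := by linarith
  have hlogN : 0 ≤ Real.log N := Real.log_nonneg hNr
  have hQ0 : 0 ≤ Real.log q := Real.log_natCast_nonneg q
  obtain ⟨E, hE⟩ : ∃ E : ℝ, E = (N : ℝ) ^ (ε / 2) := ⟨_, rfl⟩
  have hE1 : 1 ≤ E := by rw [hE]; exact Real.one_le_rpow hNr (by positivity)
  have hEE : (N : ℝ) ^ ε = E * E := by
    rw [hE, ← Real.rpow_add hN0]; congr 1; ring
  obtain ⟨r, hr⟩ : ∃ r : ℝ, r = Real.sqrt N := ⟨_, rfl⟩
  have hr1 : 1 ≤ r := by rw [hr, Real.one_le_sqrt]; exact hNr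
  obtain ⟨X, hX⟩ : ∃ X : ℝ, X = Real.sqrt (Real.log q / y) := ⟨_, rfl⟩
  have hX0 : 0 ≤ X := by rw [hX]; exact Real.sqrt_nonneg _
  obtain ⟨Q, hQ⟩ : ∃ Q : ℝ, Q = Real.log q := ⟨_, rfl⟩
  rw [← hQ] at hQ0 hX
  change ((SS N q a).card : ℝ) ≤ _
  rw [← hQ, ← hX, ← hr, hEE]
  obtain ⟨s, hs⟩ : ∃ s : ℝ, s = ((SS N q a).card : ℝ) := ⟨_, rfl⟩
  rw [← hs]
  -- it is enough to prove a bound with a smaller constant
  have fin : ∀ K : ℝ, 0 ≤ K → K ≤ C → s ≤ K * (E * E) * (r + X) → s ≤ C * (E * E) * (r + X) := by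
    intro K _ h2 h3
    refine le_trans h3 ?_
    apply mul_le_mul_of_nonneg_right _ (by linarith)
    exact mul_le_mul_of_nonneg_right h2 (by positivity)
  have hEE1 : 1 ≤ E * E := by nlinarith
  have hEE2 : E ≤ E * E := by nlinarith
  have hSN : s ≤ N := by
    have h1 : (SS N q a).card ≤ N := by
      calc (SS N q a).card ≤ (range N).card := card_filter_le _ _
        _ = N := card_range N
    rw [hs]
    exact_mod_cast h1
  by_cases hNN : N < N1
  · apply fin N1 hN1' (by rw [hC]; linarith)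
    have h1 : (N : ℝ) ≤ N1 := by exact_mod_cast hNN.le
    have h3 : (1 : ℝ) ≤ (E * E) * (r + X) := by nlinarith
    nlinarith
  push Not at hNN
  obtain ⟨ha, hb, hc, hd⟩ := hN1 N hNN
  -- the fourth root
  obtain ⟨g, hg⟩ : ∃ g : ℝ, g = Q ^ (1 / 4 : ℝ) := ⟨_, rfl⟩
  have hg0 : 0 ≤ g := by rw [hg]; exact Real.rpow_nonneg hQ0 _
  have hg4 : g ^ 4 = Q := by
    rw [hg, ← Real.rpow_natCast, ← Real.rpow_mul hQ0]
    norm_num
  have hs8 : s ≤ M * E * (r + g) := by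
    have h1 := hM N q a hN hq hcop
    change ((SS N q a).card : ℝ) ≤ _ at h1
    rw [← hs, ← hQ, ← hE, ← hr, ← hg] at h1
    refine le_trans h1 ?_
    rw [hMd]
    apply mul_le_mul_of_nonneg_right _ (by linarith)
    exact mul_le_mul_of_nonneg_right (le_abs_self _) (by linarith)
  have hr2 : r ^ 2 = N := by rw [hr]; exact Real.sq_sqrt hN0.le
  by_cases hqN : q < N
  · apply fin (2 * M) (by linarith) (by rw [hC]; linarith)
    have h3 : Q ≤ N := by
      rw [hQ]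
      have h4 : Real.log q ≤ q := by
        have := Real.log_le_sub_one_of_pos (show (0 : ℝ) < q by exact_mod_cast hq)
        linarith
      have h5 : (q : ℝ) ≤ N := by exact_mod_cast hqN.le
      linarith
    have h4 : g ≤ r := by
      have h5 : g ^ 4 ≤ r ^ 4 := by
        rw [hg4, show r ^ 4 = (r ^ 2) ^ 2 by ring, hr2]
        nlinarith
      exact le_of_pow_le_pow_left₀ (by norm_num) (by linarith) h5
    calc s ≤ M * E * (r + g) := hs8
      _ ≤ M * (E * E) * (2 * (r + X)) := by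
          apply mul_le_mul (mul_le_mul_of_nonneg_left hEE2 hM0) (by linarith) (by linarith)
            (by positivity)
      _ = 2 * M * (E * E) * (r + X) := by ring
  push Not at hqN
  by_cases hys : (y : ℝ) < 16 * (N : ℝ) ^ (1 + δ)
  · apply fin (5 * M) (by linarith) (by rw [hC]; linarith)
    have h1 : g ≤ X + 4 * E * r := by
      by_cases hQy : (y : ℝ) ≤ g ^ 2
      · have h2 : g ≤ X := by
          rw [hX]
          apply Real.le_sqrt_of_sq_le
          rw [le_div_iff₀ hy0, ← hg4]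
          nlinarith [sq_nonneg g]
        have h3 : 0 ≤ 4 * E * r := by positivity
        linarith
      · push Not at hQy
        have h2 : g ^ 2 ≤ (4 * E * r) ^ 2 := by
          have h3 : (N : ℝ) ^ (1 + δ) ≤ N * (E * E) := by
            rw [Real.rpow_add hN0, Real.rpow_one, ← hEE]
            apply mul_le_mul_of_nonneg_left _ hN0.le
            exact Real.rpow_le_rpow_of_exponent_le hNr (by linarith)
          have h4 : (4 * E * r) ^ 2 = 16 * (N * (E * E)) := by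
            rw [← hr2]; ring
          rw [h4]; linarith
        have h5 : g ≤ 4 * E * r := le_of_pow_le_pow_left₀ (by norm_num) (by positivity) h2
        linarith
    calc s ≤ M * E * (r + g) := hs8
      _ ≤ M * E * (5 * E * (r + X)) := by
          apply mul_le_mul_of_nonneg_left _ (by positivity)
          nlinarith
      _ = 5 * M * (E * E) * (r + X) := by ring
  push Not at hys
  by_cases hbig : (N : ℝ) ^ (1 / 2 + η) ≤ (SS N q a).card
  · obtain ⟨S, J, e, c, d, k, w, m, hD, hJS, hJ1, hTN⟩ := hA N q a ha hq hcop hbig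
    have htN : (N : ℝ) ^ (1 / 2 : ℝ) ≤ (J.card : ℝ) := by
      have h1 : (N : ℝ) ^ (η / 4) * (N : ℝ) ^ (1 / 2 : ℝ) ≤ (N : ℝ) ^ (η / 4) * J.card := by
        calc (N : ℝ) ^ (η / 4) * (N : ℝ) ^ (1 / 2 : ℝ) = (N : ℝ) ^ (η / 4 + 1 / 2) := by
              rw [Real.rpow_add hN0]
          _ ≤ (N : ℝ) ^ (1 / 2 + η) := Real.rpow_le_rpow_of_exponent_le hNr (by linarith)
          _ ≤ _ := hbig
          _ ≤ _ := hJ1
      exact le_of_mul_le_mul_left h1 (Real.rpow_pos_of_pos hN0 _)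
    have hTN' : ((TN J d).card : ℝ) ≤ (N : ℝ) ^ (-δ) * (J.card : ℝ) ^ 4 := by
      refine le_trans hTN ?_
      apply mul_le_mul_of_nonneg_right _ (by positivity)
      exact Real.rpow_le_rpow_of_exponent_le hNr (by linarith)
    have key := m11_big hPG hFS CS CP CU hCS hCP hCU hS hPP hU N q a y δ hδ0 hδ2 hN hq hy hcop hqN
      hb hc hd S J e c d k w m hD hJS htN hTN' hys hP
    rw [← hQ] at key
    obtain ⟨t, ht⟩ : ∃ t : ℝ, t = (J.card : ℝ) := ⟨_, rfl⟩
    have ht0 : 0 ≤ t := by rw [ht]; exact Nat.cast_nonneg _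
    rw [← ht] at key hJ1
    rw [← hs] at hJ1
    obtain ⟨A, hA'⟩ : ∃ A : ℝ, A = (N : ℝ) ^ δ := ⟨_, rfl⟩
    have hA0 : 0 < A := by rw [hA']; exact Real.rpow_pos_of_pos hN0 _
    obtain ⟨ν, hν⟩ : ∃ ν : ℝ, ν = (N : ℝ) ^ (-δ) := ⟨_, rfl⟩
    rw [← hν] at key
    have hνA : ν * A = 1 := by
      rw [hν, hA', ← Real.rpow_add hN0]; simp
    have hAE : A ≤ E := by
      rw [hA', hE]; exact Real.rpow_le_rpow_of_exponent_le hNr hδε
    have hX2 : X ^ 2 = Q / y := by rw [hX]; exact Real.sq_sqrt (by positivity)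
    rcases key with key | key
    · apply fin K1 hK10 (by rw [hC]; linarith)
      have h1 : t ≤ K1 * E * X := by
        have h2 : t ^ 2 ≤ (K1 * E * X) ^ 2 := by
          have h3 : y * t ^ 2 ≤ A * (16 * CU * Q) := by
            calc y * t ^ 2 = A * (ν * y * t ^ 2) := by
                  calc y * t ^ 2 = (ν * A) * (y * t ^ 2) := by rw [hνA, one_mul]
                    _ = _ := by ring
              _ ≤ A * (16 * CU * Q) := mul_le_mul_of_nonneg_left key hA0.le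
          have h4 : (K1 * E * X) ^ 2 = 16 * CU * (E * E) * (Q / y) := by
            rw [← hX2, show (K1 * E * X) ^ 2 = K1 ^ 2 * (E * E) * X ^ 2 by ring, hK1,
              Real.sq_sqrt (by positivity)]
          rw [h4, show 16 * CU * (E * E) * (Q / y) = (16 * CU * (E * E) * Q) / y by ring,
            le_div_iff₀ hy0]
          have h5 : A * (16 * CU * Q) ≤ (E * E) * (16 * CU * Q) :=
            mul_le_mul_of_nonneg_right (by linarith) (by positivity)
          linarith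
        exact le_of_pow_le_pow_left₀ (by norm_num) (by positivity) h2
      have h2 : (N : ℝ) ^ (η / 4) ≤ E := by
        rw [hE]; exact Real.rpow_le_rpow_of_exponent_le hNr (by linarith)
      calc s ≤ (N : ℝ) ^ (η / 4) * t := hJ1
        _ ≤ E * (K1 * E * X) := mul_le_mul h2 h1 ht0 (by linarith)
        _ = K1 * (E * E) * X := by ring
        _ ≤ K1 * (E * E) * (r + X) := by
            apply mul_le_mul_of_nonneg_left _ (by positivity)
            linarith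
    · apply fin (M + M * K2) (by positivity) (by rw [hC]; linarith)
      have hL1 : 1 ≤ 1 + Real.log N := by linarith
      have h1 : g ≤ K2 * E * X := by
        have h2 : g ^ 2 ≤ (K2 * E * X) ^ 2 := by
          have h3 : Real.sqrt (Q * (1 + Real.log N)) ≤ g ^ 2 * (1 + Real.log N) := by
            apply Real.sqrt_le_iff.2
            refine ⟨by positivity, ?_⟩
            rw [← hg4]
            have : 0 ≤ g ^ 4 * (1 + Real.log N) := by positivity
            nlinarith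
          have h4 : (y : ℝ) ≤ A * (16 * CU * (g ^ 2 * (1 + Real.log N))) := by
            calc (y : ℝ) = A * (ν * y) := by
                  calc (y : ℝ) = (ν * A) * y := by rw [hνA, one_mul]
                    _ = _ := by ring
              _ ≤ A * (16 * CU * Real.sqrt (Q * (1 + Real.log N))) :=
                  mul_le_mul_of_nonneg_left key hA0.le
              _ ≤ _ := by
                  apply mul_le_mul_of_nonneg_left _ hA0.le
                  apply mul_le_mul_of_nonneg_left h3 (by positivity)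
          have h5 : 1 + Real.log N ≤ (1 + 2 / ε) * E := by
            have h6 := m8_log N hN (ε / 2) (by positivity)
            rw [← hE] at h6
            have e1 : 1 / (ε / 2) = 2 / ε := by field_simp
            rw [e1] at h6
            exact h6
          have h6 : (y : ℝ) ≤ 16 * CU * (1 + 2 / ε) * (E * E) * g ^ 2 := by
            refine le_trans h4 ?_
            calc A * (16 * CU * (g ^ 2 * (1 + Real.log N))) ≤
                  E * (16 * CU * (g ^ 2 * ((1 + 2 / ε) * E))) := by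
                  apply mul_le_mul hAE _ (by positivity) (by linarith)
                  apply mul_le_mul_of_nonneg_left _ (by positivity)
                  exact mul_le_mul_of_nonneg_left h5 (by positivity)
              _ = _ := by ring
          have h7 : (K2 * E * X) ^ 2 = 16 * CU * (1 + 2 / ε) * (E * E) * (Q / y) := by
            rw [← hX2, show (K2 * E * X) ^ 2 = K2 ^ 2 * (E * E) * X ^ 2 by ring, hK2,
              Real.sq_sqrt (by positivity)]
          rw [h7, show 16 * CU * (1 + 2 / ε) * (E * E) * (Q / y) =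
            (16 * CU * (1 + 2 / ε) * (E * E) * Q) / y by ring, le_div_iff₀ hy0, ← hg4]
          have h8 := mul_le_mul_of_nonneg_left h6 (sq_nonneg g)
          calc g ^ 2 * (y : ℝ) ≤ g ^ 2 * (16 * CU * (1 + 2 / ε) * (E * E) * g ^ 2) := h8
            _ = 16 * CU * (1 + 2 / ε) * (E * E) * g ^ 4 := by ring
        exact le_of_pow_le_pow_left₀ (by norm_num) (by positivity) h2
      calc s ≤ M * E * (r + g) := hs8
        _ ≤ M * E * (E * (1 + K2) * (r + X)) := by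
            apply mul_le_mul_of_nonneg_left _ (by positivity)
            have e1 : 0 ≤ K2 * E * r := by positivity
            have e2 : r ≤ E * r := by nlinarith
            have e3 : 0 ≤ E * X := by positivity
            have e4 : E * (1 + K2) * (r + X) = E * r + E * X + K2 * E * r + K2 * E * X := by ring
            rw [e4]
            linarith
        _ = (M + M * K2) * (E * E) * (r + X) := by ring
  · push Not at hbig
    rw [← hs] at hbig
    apply fin 1 (by norm_num) (by rw [hC]; linarith)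
    have h1 : (N : ℝ) ^ (1 / 2 + η) ≤ (E * E) * r := by
      rw [← hEE, hr, Real.sqrt_eq_rpow, ← Real.rpow_add hN0]
      exact Real.rpow_le_rpow_of_exponent_le hNr (by linarith)
    have h2 : 0 ≤ (E * E) * X := by positivity
    nlinarith

end Pool.Agent.Helper73.RD8
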