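import Pool.Agent.Helper19.RD.Stmts9
import Pool.Agent.Helper18.RD.Stmts2

/-! Row GGS of project RD 8: few pairs are neither close nor antipodal. -/

set_option autoImplicit false

namespace Pool.Agent.Helper73.RD8

open Finset Pool.Agent.Helper18.RD Pool.Agent.Helper19.RD

theorem st_GGS (hDIC : ST_DIC) (hEND : ST_END2) (hPAR : ST_PAR) : ST_GGS := by
  intro c0 hc0
  obtain ⟨C, hC, hE⟩ := hEND
  obtain ⟨A, hA1, hA2, hA3⟩ : ∃ A : ℝ, 1 ≤ A ∧ 16 / c0 ≤ A ∧ 256 * (C + 2048) ≤ A :=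
    ⟨max (16 / c0) (max (256 * (C + 2048)) 1),
      le_trans (le_max_right _ _) (le_max_right _ _), le_max_left _ _,
      le_trans (le_max_left _ _) (le_max_right _ _)⟩
  obtain ⟨N0, hP⟩ := hPAR A 1 (1 / 2) (by linarith) one_pos (by norm_num)
  refine ⟨N0, ?_⟩
  intro N q J U e c d k w hN hD hNJ hU hUz hV
  obtain ⟨p1, pK, pz, -, pzx, -, pzK, pB, -, -, pη, -, pxN, -, pη2⟩ := hP N hN
  have hη : 0 < eN N := Real.exp_pos _
  have hK1 : (1 : ℝ) ≤ (KN N : ℝ) := by exact_mod_cast pK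
  have hηh : eN N ≤ 1 / 2 := by nlinarith
  have h := hDIC N q (KN N) (zN N) (xN N) J U e c d k w (eN N) p1 pK (by omega) (by omega) hD hU hUz
    hη hηh
  have hM := hE N J c d k p1 hD.sub hD.kap hNJ hD.cd
  have hn1 : (1 : ℝ) ≤ (N : ℝ) := by exact_mod_cast p1
  have hn0 : (0 : ℝ) < (N : ℝ) := by linarith
  have hlog : 0 ≤ Real.log N := Real.log_nonneg hn1
  have hz10 : (N : ℝ) ^ 10 ≤ (zN N : ℝ) ^ (KN N) := by exact_mod_cast pzK
  have hx1 : (1 : ℝ) ≤ (xN N : ℝ) := by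
    have : 1 ≤ xN N := by omega
    exact_mod_cast this
  have hlx0 : 0 ≤ Real.log (xN N) := Real.log_nonneg hx1
  have hlx : Real.log (xN N) ≤ Real.log N := by
    refine Real.log_le_log (by linarith) (pxN.trans ?_)
    calc (N : ℝ) ^ (1 / 10 : ℝ) ≤ (N : ℝ) ^ (1 : ℝ) :=
          Real.rpow_le_rpow_of_exponent_le hn1 (by norm_num)
      _ = N := Real.rpow_one _
  generalize hzz : (zN N : ℝ) ^ (KN N) = Z at *
  generalize hlxx : Real.log (xN N) = lx at *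
  generalize hLL : Real.log N = ln at *
  generalize hMM : ((MM J c d).card : ℝ) = mm' at *
  generalize hGG : ((GG J U e (eN N)).card : ℝ) = G at *
  generalize hRR : (J.card : ℝ) = R at *
  generalize hVV : VV U = V at *
  have hG0 : 0 ≤ G := by rw [← hGG]; positivity
  have hR0 : 0 ≤ R := by rw [← hRR]; positivity
  have hL1 : (1 : ℝ) ≤ 1 + ln := by linarith
  have hL0 : (0 : ℝ) < 1 + ln := by linarith
  have hV0 : 0 < V := lt_of_lt_of_le (by positivity) hV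
  set K := KN N with hKdef
  -- the number `B`
  have hB1 : 1 ≤ A * (1 + ln) * (K : ℝ) := by
    have := mul_le_mul hA1 hL1 zero_le_one (by linarith)
    have h2 := mul_le_mul this hK1 zero_le_one (by positivity)
    linarith
  generalize hBB : A * (1 + ln) * (K : ℝ) = B at *
  have hB0 : 0 < B := by linarith
  have hAB : A ≤ B := by
    rw [← hBB]
    have h2 : 1 ≤ (1 + ln) * (K : ℝ) := by nlinarith
    nlinarith
  -- `M`
  have hM1 : 1 ≤ 1 + (K : ℝ) * lx := by nlinarith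
  have hMB : 1 + (K : ℝ) * lx ≤ B := by
    rw [← hBB]
    have h2 : 1 + (K : ℝ) * lx ≤ (1 + ln) * (K : ℝ) := by nlinarith
    have h3 : (1 + ln) * (K : ℝ) ≤ A * ((1 + ln) * (K : ℝ)) := by
      have : 0 ≤ (1 + ln) * (K : ℝ) := by positivity
      nlinarith
    linarith
  generalize hMMd : 1 + (K : ℝ) * lx = M at *
  -- `N ^ 8 / Z ≤ N ^ (-1/20)`
  have hu : 0 < (N : ℝ) ^ (-(1 / 20) : ℝ) := Real.rpow_pos_of_pos hn0 _
  have hZ : (N : ℝ) ^ 8 / Z ≤ (N : ℝ) ^ (-(1 / 20) : ℝ) := by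
    have hZ0 : 0 < Z := lt_of_lt_of_le (by positivity) hz10
    calc (N : ℝ) ^ 8 / Z ≤ (N : ℝ) ^ 8 / (N : ℝ) ^ 10 := by
          gcongr
      _ = (N : ℝ) ^ (-2 : ℝ) := by
          rw [Real.rpow_neg hn0.le, show (2 : ℝ) = ((2 : ℕ) : ℝ) by norm_num, Real.rpow_natCast]
          field_simp
      _ ≤ (N : ℝ) ^ (-(1 / 20) : ℝ) :=
          Real.rpow_le_rpow_of_exponent_le hn1 (by norm_num)
  -- right side
  have hR8 : 0 ≤ R ^ 8 := by positivity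
  have hrhs : M ^ 2 * mm' + M * (2048 * (N : ℝ) ^ 8 / Z) * R ^ 8 ≤
      M ^ 2 * ((C + 2048) * R ^ 8 * (N : ℝ) ^ (-(1 / 20) : ℝ)) := by
    have h1 : M ^ 2 * mm' ≤ M ^ 2 * (C * R ^ 8 * (N : ℝ) ^ (-(1 / 20) : ℝ)) :=
      mul_le_mul_of_nonneg_left hM (by positivity)
    have h2 : M * (2048 * (N : ℝ) ^ 8 / Z) * R ^ 8 ≤
        M ^ 2 * (2048 * R ^ 8 * (N : ℝ) ^ (-(1 / 20) : ℝ)) := by
      have h3 : M * (2048 * (N : ℝ) ^ 8 / Z) * R ^ 8 = M * (2048 * R ^ 8 * ((N : ℝ) ^ 8 / Z)) := by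
        ring
      rw [h3]
      have h4 : M * (2048 * R ^ 8 * ((N : ℝ) ^ 8 / Z)) ≤
          M * (2048 * R ^ 8 * (N : ℝ) ^ (-(1 / 20) : ℝ)) := by
        gcongr
      have h5 : M * (2048 * R ^ 8 * (N : ℝ) ^ (-(1 / 20) : ℝ)) ≤
          M ^ 2 * (2048 * R ^ 8 * (N : ℝ) ^ (-(1 / 20) : ℝ)) := by
        have h6 : 0 ≤ 2048 * R ^ 8 * (N : ℝ) ^ (-(1 / 20) : ℝ) := by positivity
        have h7 : M ≤ M ^ 2 := by nlinarith
        exact mul_le_mul_of_nonneg_right h7 h6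
      exact h4.trans h5
    calc _ ≤ M ^ 2 * (C * R ^ 8 * (N : ℝ) ^ (-(1 / 20) : ℝ)) +
          M ^ 2 * (2048 * R ^ 8 * (N : ℝ) ^ (-(1 / 20) : ℝ)) := add_le_add h1 h2
      _ = _ := by ring
  -- the main inequality for the numbers
  have hB5 : B ^ (5 * K) ≤ (N : ℝ) ^ (1 / 40 : ℝ) := by
    have h1 : (B ^ (5 * K)) ^ 20 ≤ ((N : ℝ) ^ (1 / 40 : ℝ)) ^ 20 := by
      calc (B ^ (5 * K)) ^ 20 = B ^ (100 * K) := by rw [← pow_mul]; congr 1; ring
        _ ≤ (N : ℝ) ^ (1 / 2 : ℝ) := pB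
        _ = ((N : ℝ) ^ (1 / 40 : ℝ)) ^ 20 := by
          rw [← Real.rpow_natCast, ← Real.rpow_mul hn0.le]
          norm_num
    exact le_of_pow_le_pow_left₀ (by norm_num) (by positivity) h1
  have hkey : 256 * (C + 2048) * (16 * (K : ℝ) * (1 + ln) / c0) ^ (2 * K) * M ^ 2 ≤
      (N : ℝ) ^ (1 / 40 : ℝ) := by
    refine le_trans ?_ hB5
    have h1 : 256 * (C + 2048) ≤ B := hA3.trans hAB
    have h2 : 16 * (K : ℝ) * (1 + ln) / c0 ≤ B := by
      have h3 : 16 * (K : ℝ) * (1 + ln) / c0 = 16 / c0 * ((1 + ln) * (K : ℝ)) := by ring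
      rw [h3, ← hBB, mul_assoc]
      exact mul_le_mul_of_nonneg_right hA2 (by positivity)
    have h4 : 0 ≤ 16 * (K : ℝ) * (1 + ln) / c0 := by positivity
    calc 256 * (C + 2048) * (16 * (K : ℝ) * (1 + ln) / c0) ^ (2 * K) * M ^ 2
        ≤ B * B ^ (2 * K) * B ^ 2 := by
          gcongr
      _ = B ^ (2 * K + 3) := by ring
      _ ≤ B ^ (5 * K) := pow_le_pow_right₀ hB1 (by omega)
  have hnum : 256 * (4 ^ (4 * K) * (K : ℝ) ^ (2 * K) *
      (M ^ 2 * ((C + 2048) * (N : ℝ) ^ (-(1 / 20) : ℝ)))) ≤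
      (c0 / (1 + ln)) ^ (2 * K) * (N : ℝ) ^ (-(1 / 50) : ℝ) := by
    have h1 : (4 : ℝ) ^ (4 * K) = 16 ^ (2 * K) := by
      rw [show 4 * K = 2 * (2 * K) by ring, pow_mul]
      norm_num
    have h2 : (0 : ℝ) < (c0 / (1 + ln)) ^ (2 * K) := by positivity
    have h3 : 256 * (4 ^ (4 * K) * (K : ℝ) ^ (2 * K) *
        (M ^ 2 * ((C + 2048) * (N : ℝ) ^ (-(1 / 20) : ℝ)))) =
        (c0 / (1 + ln)) ^ (2 * K) *
          ((256 * (C + 2048) * (16 * (K : ℝ) * (1 + ln) / c0) ^ (2 * K) * M ^ 2) *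
            (N : ℝ) ^ (-(1 / 20) : ℝ)) := by
      rw [h1]
      have h4 : (c0 / (1 + ln)) ^ (2 * K) * (16 * (K : ℝ) * (1 + ln) / c0) ^ (2 * K) =
          16 ^ (2 * K) * (K : ℝ) ^ (2 * K) := by
        rw [← mul_pow, ← mul_pow]
        congr 1
        field_simp
      calc _ = 256 * (C + 2048) * (16 ^ (2 * K) * (K : ℝ) ^ (2 * K)) * M ^ 2 *
            (N : ℝ) ^ (-(1 / 20) : ℝ) := by ring
        _ = _ := by rw [← h4]; ring
    rw [h3]
    refine mul_le_mul_of_nonneg_left ?_ h2.le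
    calc _ ≤ (N : ℝ) ^ (1 / 40 : ℝ) * (N : ℝ) ^ (-(1 / 20) : ℝ) :=
          mul_le_mul_of_nonneg_right hkey hu.le
      _ = (N : ℝ) ^ (1 / 40 + -(1 / 20) : ℝ) := (Real.rpow_add hn0 _ _).symm
      _ ≤ (N : ℝ) ^ (-(1 / 50) : ℝ) :=
          Real.rpow_le_rpow_of_exponent_le hn1 (by norm_num)
  -- conclusion
  have hX : (c0 / (1 + ln)) ^ (2 * K) * (N : ℝ) ^ (-(1 / 50) : ℝ) ≤
      V ^ (2 * K) * (eN N / 2) ^ (4 * K) := by
    have h1 : (c0 / (1 + ln)) ^ (2 * K) ≤ V ^ (2 * K) :=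
      pow_le_pow_left₀ (by positivity) hV _
    exact mul_le_mul h1 pη (by positivity) (by positivity)
  have hX0 : 0 < V ^ (2 * K) * (eN N / 2) ^ (4 * K) := by positivity
  have hfin : (4 * G) ^ 4 ≤ (R ^ 2) ^ 4 := by
    have h1 : (4 * G) ^ 4 * (V ^ (2 * K) * (eN N / 2) ^ (4 * K)) ≤
        (R ^ 2) ^ 4 * (V ^ (2 * K) * (eN N / 2) ^ (4 * K)) := by
      calc (4 * G) ^ 4 * (V ^ (2 * K) * (eN N / 2) ^ (4 * K))
          = 256 * (G ^ 4 * V ^ (2 * K) * (eN N / 2) ^ (4 * K)) := by ring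
        _ ≤ 256 * (4 ^ (4 * K) * (K : ℝ) ^ (2 * K) *
            (M ^ 2 * ((C + 2048) * R ^ 8 * (N : ℝ) ^ (-(1 / 20) : ℝ)))) := by
            refine mul_le_mul_of_nonneg_left (h.trans ?_) (by norm_num)
            exact mul_le_mul_of_nonneg_left hrhs (by positivity)
        _ = R ^ 8 * (256 * (4 ^ (4 * K) * (K : ℝ) ^ (2 * K) *
            (M ^ 2 * ((C + 2048) * (N : ℝ) ^ (-(1 / 20) : ℝ))))) := by ring
        _ ≤ R ^ 8 * (V ^ (2 * K) * (eN N / 2) ^ (4 * K)) :=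
            mul_le_mul_of_nonneg_left (hnum.trans hX) hR8
        _ = _ := by ring
    exact le_of_mul_le_mul_right h1 hX0
  have hlast : 4 * G ≤ R ^ 2 := le_of_pow_le_pow_left₀ (by norm_num) (by positivity) hfin
  rw [← hGG, ← hRR] at hlast
  exact_mod_cast hlast

end Pool.Agent.Helper73.RD8
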